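import Pool.Agent.H33.HG3

set_option autoImplicit false

namespace Pool.Agent.Results.MP_3e0795_gt.Independent

open Set Cardinal Pool.Agent.H33.GrothDefs

/-- Martin's axiom for `ℵ₁` dense sets. -/
def MA1 : Prop := ∀ (Q : Type) [PartialOrder Q] [Nonempty Q],
  (∀ A : Set Q, (A.Pairwise fun p q => ¬ ∃ r, r ≤ p ∧ r ≤ q) → A.Countable) →
  ∀ 𝒟 : Set (Set Q), #𝒟 ≤ ℵ_ 1 → (∀ D ∈ 𝒟, ∀ p, ∃ q ∈ D, q ≤ p) →
    ∃ G : Set Q, (∀ p ∈ G, ∀ q, p ≤ q → q ∈ G) ∧ (∀ p ∈ G, ∀ q ∈ G, ∃ r ∈ G, r ≤ p ∧ r ≤ q) ∧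
      ∀ D ∈ 𝒟, (G ∩ D).Nonempty

/-- Normal Suslin trees: any two nodes have a meet, every node has infinitely many immediate
successors. -/
def NormalSuslin (T : Type) [SemilatticeInf T] : Prop :=
  WellFoundedLT T ∧ (∀ t : T, IsChain (· ≤ ·) (Iio t)) ∧ Uncountable T ∧
    (∀ C : Set T, IsChain (· ≤ ·) C → C.Countable) ∧
    (∀ A : Set T, IsAntichain (· ≤ ·) A → A.Countable) ∧ ∀ t : T, {u | t ⋖ u}.Infinite

theorem result :
    (continuum.{0} = ℵ_ 1 → (∃ (T : Type) (_ : SemilatticeInf T), NormalSuslin T) →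
      ∃ (X : Type) (_ : TopologicalSpace X), CompactSpace X ∧ T2Space X ∧
        PerfectlyNormalSpace X ∧ ∃ Y : Set X, ¬ IsGrothendieck Y) ∧
    (MA1 → ∀ (X : Type) [TopologicalSpace X] [CompactSpace X] [T2Space X]
      [PerfectlyNormalSpace X] (Y : Set X), IsGrothendieck Y) :=
  ⟨fun hCH ⟨_, _, h1, h2, h3, h4, h5, h6⟩ =>
    Pool.Agent.H33.HG3.neg ⟨h1, h2, h3, h4, h5⟩ h6 hCH, fun h => Pool.Agent.H33.HG3.pos h⟩

end Pool.Agent.Results.MP_3e0795_gt.Independent
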